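import Pool.Agent.U231.FR.R8

/-!
# The conjectures `B^n` for products of all smooth varieties with varieties of Fermat type

Let `κ` be a finite field with `q` elements, of characteristic `p`, and `𝒱` a class of smooth projective
varieties over `κ`, closed under products, with Chow groups `A` with rational coefficients and a Weil
cohomology theory `H` (framework of helper492 and helper484: `TheoryData`, `IsChow`, `IsWeil`). Let `X_i` be
varieties in `𝒱` **of Fermat type** of different prime degrees `N_i` and of lengths at most `s_i`
(`IsFermatType`): the cohomology of `X_i` is generated by the classes of cycles and a subspace `T_i`, stable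
under the Frobenius, such that each eigenvalue of the Frobenius on `T_i` is, up to a root of unity and a
power of `q`, a product `∏_{a ∈ A} g(θ ^ a)` of at most `s_i` Gauss sums over `κ`, where `θ` is a
multiplicative character of `κ` of order `N_i`, and where the multiset `A + p A + ⋯ + p ^ (f - 1) A`, `f` the
order of `p` modulo `N_i`, is not symmetric, i.e. not invariant under `a ↦ -a`.

By the theorem of Weil the diagonal hypersurfaces `∑ c_j x_j ^ N = 0` of dimension `n` over `κ` (for
`q ≡ 1` modulo `N`) and their powers and products are of this form with `s = n + 2` (for products: the sum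
of these numbers), if the classes with symmetric `A + p A + ⋯` are algebraic. For `p ≡ 1` modulo `N` the
condition on the multiset is that `A` is not symmetric, and **the algebraicity for symmetric `A` is known**
for `c_j = 1`, and in general after a finite extension of `κ` (linear subspaces, Ran, Shioda and Katsura).

Let `U` be **any** smooth variety over `κ` (not necessarily proper), and `Z` **any** variety in `𝒱`.
For `X` in `𝒱` let
* `T^n(X) = CH^n(X × U) ⊗ ℚ_ℓ`, with the Frobenius endomorphism `φT` of `U`,
* `R^n(X) = H^{2n}(X̄ × Ū, ℚ_ℓ)`, in `R(X) = H(X̄) ⊗ H(Ū)`, with the Frobenius endomorphism `φ` of `U`; the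
  eigenvalue `1` of `Frob_q` on `H^{2n}(X̄ × Ū, ℚ_ℓ(n))` is the eigenvalue `q ^ n` of `Φ = F_X ⊗ φ` on `R^n(X)`,
* `reg : T^n(X) → R^n(X)` the cycle class map `c^n` of `X × U`.
On `T` and `R` act the correspondences between the varieties in `𝒱` (on `R` by their cohomology
classes), and the Frobenius endomorphism of `X × U` is `q ^ n` on `T^n(X)`; only such properties are
used (`IsMixedTheory`, `IsCycleTheory`, `IsRegulator`). Let `χ` be a polynomial with rational
coefficients, `χ (0) ≠ 0`, which is satisfied by the Frobenius endomorphism of `U` on the cohomology of
`U`, let `B` be the set of the products `β` of an eigenvalue of Frobenius on `H(Z)` and of a complex root of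
`χ`, and suppose that the `β` are algebraic (theorem of Deligne). Let `f_i` be the order of `p` modulo
`N_i`. Suppose that for all `β` in `B` and all `i` there is an `m > 0` such that (`IsSmallBase`)

* the field `F = ℚ(β ^ m) ∩ ℚ(ζ_{N_i})`, `ζ_N` a root of unity of order `N`, is real (equivalently
  `(N_i - 1) / [F : ℚ]` is even); for instance `N_i` is odd and unramified in the field `ℚ(β ^ m)`;
* or `N_i > s_i f_i [F : ℚ] + 1`; or `N_i = 2`.

**So the theorem applies to all prime numbers `N_i` with finitely many exceptions, which depend only on
the fields `ℚ(β)`. For the other primes there is no condition at all on the `X_i`: they may be of any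
dimension and products of any number of factors, and `s_i` and `f_i` are arbitrary.**

**Theorem.** Let `V` be the product of `Z` and of finitely many pairwise different `X_i`, and
`e = dim V - dim Z`.
* For every `n`: `c^n` is surjective onto the invariants of Frobenius and the eigenvalue `1` is
  semisimple for `V × U` if and only if this holds for `Z × U` and all `l` with `n - e ≤ l ≤ n`. Nothing else
  is assumed.
* Assume that homologically trivial self-correspondences of degree zero of the products `V` are
  nilpotent (known for example if `Z` is dominated by a product of curves and the `X_i` are diagonal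
  hypersurfaces) and that `χ (φT) = 0` on the Chow groups of the `X × U`. Then **`B^n(V × U)` is
  equivalent to the assertions `B^l(Z × U)` with `n - e ≤ l ≤ n`** (`c^n` is bijective onto the invariants
  and the eigenvalue `1` is semisimple: both questions).

For example `U` may be a surface fibred over a curve `C` as in the problem, `Z` a point and the `X_i`
diagonal hypersurfaces of any dimensions and of different odd prime degrees `N_i` with `p ≡ 1` modulo
`N_i`, unramified in the fields of the Frobenius eigenvalues of `U`: then
`c^n` is surjective and the eigenvalue `1` is semisimple for all `n` on `X_1 × ⋯ × X_r × U` if and only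
if the conjecture of Birch and Swinnerton-Dyer holds for the Albanese variety of `U_K`.

The starting result `MP_81632f_ag.HyperplaneCoverings` (helper876) and the result
`MP_81632f_ag.LargePrimeCoverings` (helper222) are about cyclic coverings branched along hyperplanes with
few branch divisors (where `H^{n,0}` is used), the first one with `Z × U` of small level or with linearly
disjoint fields of eigenvalues. Here all nonsymmetric characters occur, which for a diagonal
hypersurface of large dimension contain characters of very small level (all Hodge numbers but the two
in the middle are zero for some conjugates), and there is no condition on the level of `Z × U`.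

The proof. Let `α_i` be eigenvalues of the Frobenius on the `T_i`, for `i` in a nonempty set `I`, and
suppose that `β ∏ α_i` is a power of `q` up to a root of unity. By the theorem of Stickelberger for the
conjugates of Gauss sums the function `t ↦ ∑_{x ∈ A + p A + ⋯} saw(t x)` on `(ℤ/N_i)ˣ` is invariant
under the subgroup with the fixed field `F`. The values `L(1, χ)` are not zero, so the
sawtooth functions `t ↦ saw(t x)` are independent up to the sign of `x`, and the odd part of the
multiplicity function of `A + p A + ⋯` is invariant under this subgroup and not zero. So `-1` is not
in the subgroup (`F` is not real), and the support of `A + p A + ⋯` contains a coset of it: at least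
`(N_i - 1) / [F : ℚ]` elements, but at most `s_i f_i`, a contradiction
(`U231/FF`, as in my hand-ins `MP_f569db_ag.FermatFactors`, `MP_ffcd14_ag.FermatFactors` and
`MP_0f183b_ag.FermatFactors` on the standard conjectures and the Tate conjecture for `V` itself). From
this the decomposition of the Chow groups of `V × U` and of the invariants of Frobenius follows by
projectors in the ring generated by the Frobenius and the algebraic cycles (helper876, `N876/CG`).

helper231 (`Pool/Agent/U231/FF`, `U231/FR`); the part on Chow groups, with its definitions, is the library
of helper876 (`N876/CG`, `N876/R816`), adapted by helper222 (`U222/SL/R8`), built on helpers 484, 492, 550.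
-/

set_option autoImplicit false

open Polynomial CategoryTheory AlgebraicGeometry

namespace Pool.Agent.Results.MP_81632f_ag.FermatFactors

open Pool.Agent.H914 Pool.Agent.H914.VarClass Pool.Agent.H914.VarClass.Obj Pool.Agent.W492.BB
  Pool.Agent.W484.CK Pool.Agent.U231.FF Pool.Agent.U231.FR.R8

/-- **The conjectures `B^n` for products of arbitrary smooth varieties with varieties of Fermat type of different prime degrees.** -/
theorem result (p : ℕ) [Fact p.Prime] (κ : Type) [Field κ] [Fintype κ] [CharP κ p] {ι : Type}
    (N s : ι → ℕ) {𝒱 : VarClass κ} (A : TheoryData.{0, 0, 0} 𝒱 ℚ) [IsChow A] {K : Type} [Field K]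
    [IsAlgClosed K] [CharZero K] (H : WeilTheoryData.{0, 0, 0} A K) [IsWeil H] (τ : K →+* ℂ)
    (F : ∀ X : 𝒱.Obj, X ⟶ X) (X : ι → 𝒱.Obj) (Z : 𝒱.Obj) (χ : ℚ[X])
    (h : IsFermatSystem p N s H τ F X Z χ) (T R : MotivicData A)
    (φT : ∀ X, T.M X →ₗ[ℚ] T.M X) (hT : IsCycleTheory T φT F (Fintype.card κ))
    (φ : ∀ X, R.M X →ₗ[ℚ] R.M X) (hR : IsMixedTheory H R φ χ)
    (reg : ∀ X, T.M X →ₗ[ℚ] R.M X) (hreg : IsRegulator T R φT φ reg) :
    (∀ L : List ι, L.Nodup → Conclusions H F (Fintype.card κ) χ X Z φT φ reg L) ∧
    -- the degree in the condition on `Z` and `U` is at most the degree of `β`
    (∀ (n : ℕ) (β : ℂ), IsAlgebraic ℚ β → commonDegree n β ≤ (minpoly ℚ β).natDegree) :=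
  ⟨fun L hL => main p κ N s A H τ F X Z χ h T R φT hT φ hR reg hreg L hL,
    fun _ _ hβ => commonDegree_le hβ⟩

end Pool.Agent.Results.MP_81632f_ag.FermatFactors
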