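import Mathlib
import Pool.Agent.U191.GSHalf
import Pool.Agent.TH170.GS.TB2

/-!
# The conjectures of Beilinson and Tate for the smooth varieties over finite fields generated by the
abelian varieties with one half of all slope types of every CM field of degree `2 r ^ k`

Over an algebraic closure of the field with `p` elements each abelian variety is isogenous to the
reduction of an abelian variety of CM type (Honda, Tate). So an abelian variety over the field
with `p ^ a` elements is modelled by `RedAV`: a finite product of CM types `(E i, Φ i)` with Weil
numbers `π i ∈ E i` that satisfy the formula of Shimura and Taniyama; its cohomology of degree
`n`, with coefficients in an algebraically closed field `Ω`, consists of the alternating `n`-forms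
on `Ω ⊗ H_1`, on which the Frobenius endomorphism acts by `π`. We fix an isomorphism `ν` of the
algebraic closure of `ℚ_p` with `ℂ`; it defines a `p`-adic valuation of `ℂ`, with the value one at
`p`.

Let `K i` (`i` in a finite set) be CM fields of degree `2 g i` which are pairwise independent: for
`i ≠ k` and all complex embeddings `φ` of `K i` and `ψ` of `K k` some automorphism of `ℂ` is the
identity on `φ (K i)` and the complex conjugation on `ψ (K k)` (this is no condition if there is
only one field). Let `M i` be a function with integral values on the complex embeddings of `K i`,
invariant under complex conjugation (the weights). A CM type `Φ i` of `K i` (a choice of one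
element out of each complex conjugate pair of embeddings; there are `2 ^ g i` types), `M i` and a
real number `κ i ≠ 0` prescribe the slopes `(a + κ M) / 2` (at the embeddings in `Φ i`) and `(a -
κ M) / 2` (outside of `Φ i`) of a Weil number for `p ^ a` in `K i`. If `p` splits completely in `K
i` then, by Honda and Tate, all rational slopes between `0` and `a` that are symmetric in this way
occur for abelian varieties over finite fields. The case `M = 1`, `κ = a` is the ordinary case.

For a family of types `Φ i` let `𝒞` (`OfTypes`) be the class of the abelian varieties `Y` each of
whose factors is supersingular or has a Frobenius endomorphism some power of which is, for some `i`,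
a Weil number in `K i` with the slopes prescribed by `Φ i`, `M i` and some real number `κ i ≠ 0`
(which depends only on `Y` and `i`). So `Y` is, over an algebraic closure, isogenous to a product of
powers of one abelian variety for each `i`, with the given slopes, and of a supersingular one. The
class `𝒞` contains all products of powers of its members, and the products of its members with
supersingular abelian varieties.

`Homology Ω V` are data of motivic homology `M X i j = H_i^M(X, ℚ(j)) = CH_j(X, i - 2 j) ⊗ ℚ` and
of `ℓ`-adic homology `E X i j = H_i(X, ℚ_ℓ(j))` (coefficients extended to `Ω`) of schemes `X` of
finite type over a finite field (the elements of `V`), with the Frobenius and the regulator. For a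
family of types let `𝒢` be the smallest class (`Generated`) of such schemes that contains those
with the homology groups of abelian varieties in `𝒞` (`IsAbelianOfTypes`), that is closed under
direct summands of finite sums of twists of motives, and that contains all of a closed subscheme
`Z` of `X`, `X` and `X ∖ Z` if it contains two of them. It contains for instance all products of
varieties in `𝒞`, all products of curves with Jacobians in `𝒞` and of open subsets of such curves,
symmetric powers of them, and the singular and the open varieties with a stratification by such
varieties.

Let `𝒮` (`Spread`) be the smallest class of schemes that contains `𝒢`, all open subschemes (with an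
arbitrary complement) and all images under proper morphisms of its members, the schemes that are the
union of a closed and an open member, and the schemes whose motives are direct summands of sums of
twists of motives of members. For example it contains all varieties dominated by varieties in `𝒢`.

**The property of the slope types.** `Q` (`Holds`) is the following:

* (Q2, and surjectivity in Q1) for all schemes `X` in `𝒮` and all `i` the eigenvalue one of the
  Frobenius on `H_(2 i)(X, ℚ_ℓ(i))` is semisimple, and the invariant elements are spanned by
  classes of cycles of dimension `i` (`IsOnto T X i`);
* (Q1) for all schemes `X` in `𝒢` and all `i` the cycle class map induces an isomorphism of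
  `CH_i(X) ⊗ Ω` with the space of the invariant elements (`IsIso T X i`);
* (Q1) the same holds for the complement of an arbitrary closed subscheme `Z` of dimension at most
  `d` of a scheme in `𝒢`, for all `i ≥ d`.

For smooth `X` of dimension `e` the group `H_(2 i)(X, ℚ_ℓ(i))` is `H^(2 (e - i))(X, ℚ_ℓ(e - i))`.

Properties of the theory of cycles that are used for the abelian varieties (`IsChow`,
`IsMotivic`): Poincaré duality, the formal properties of correspondences, the nilpotence of
homologically trivial correspondences (Kimura), the operation of the Frobenius endomorphism on
higher Chow groups, the vanishing of the higher rational `K`-groups of a finite field (Quillen),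
and the algebraicity of the classes in `Alg` (of which only products of classes of divisors matter
here, theorem of Tate). The passage from the Tate conjecture to all degrees and to the class
`Generated` is due to Soulé, Geisser, Kahn and Jannsen.

**The theorem.** Let `K` be **any CM field of degree `2 g = 2 r ^ k`**, `r` a prime number, of
degree at least `16` if `r = 2`. Nothing is assumed about the Galois group of the normal closure of
`K`, and nothing about the subfields of `K`.

* (`HalfOfAll`) For all weights `M` (odd if `r = 2`; if `r` is odd then `r` may divide some, but not
  all of them) the property `Q` is true for **at least one half of all `2 ^ g` types** of `K`.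
* (`MostWithWeightsOne`) For the weights `M = 1` (for instance in the ordinary case) it is true for
  at least `(1 - 1 / r) 2 ^ g` of the types.
* (`OneOfTwo`) There is a set `B` of embeddings of `K`, stable under complex conjugation, such that
  for **every** type `Φ` it is true for `Φ` or for the symmetric difference of `Φ` and `B`.
* (`SixteenPercent`) There is a number `g₀` such that for every CM field that is **abelian over
  `ℚ`**, of any degree `2 g ≥ 2 g₀`, and all odd weights it is true for at least 16 percent of all
  `2 ^ g` types; again nothing is assumed on the subfields.

All this is proved more generally for finitely many pairwise independent fields `K i`; the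
proportions are then multiplied.

The earlier result for this problem (AlmostAllSlopeTypes) bounds the number of the exceptional
types by `2 ^ g ρ (K)`; the number `ρ (K)` can be larger than one if `K` has many CM subfields,
for instance for abelian fields of 2-power degree, and then the bound says nothing. The proof
joins two parts of the library of the starting files: the theorem that one half of all types have
no relations (`Pool.Agent.Q29.EP`, written for the conjecture of Parshin, MP_de59b4_ag), and the
consequences of elementary relations between the Frobenius eigenvalues for this problem.
-/

set_option autoImplicit false

namespace Pool.Agent.Results.MP_81632f_ag.HalfOfAllTypes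

open NumberField Module Pool.Agent.H204R3.CM Pool.Agent.H977R3.CM Pool.Agent.TH170 Pool.Agent.Q29.EP

open Pool.Agent.W495.TA Pool.Agent.W495.FM

/-- Semisimplicity and surjectivity for the class `Spread` of the schemes generated by abelian
varieties with the slope types `Φ`, and bijectivity for these schemes and for complements. -/
def Holds {p : ℕ} [Fact p.Prime] (ν : PadicAlgCl p ≃+* ℂ) {I : Type} (K : I → Type)
    [∀ i, Field (K i)] (M : ∀ i, (K i →+* ℂ) → ℤ) (Φ : ∀ i, Set (K i →+* ℂ)) : Prop :=
  ∀ (Ω : Type) [Field Ω] [IsAlgClosed Ω] [CharZero Ω] (V : Type) (T : Homology Ω V),
    IsHomology T → HasWeights T →
      (∀ X : V, Spread T (Generated T (GS.IsAbelianOfTypes ν K M Φ T)) X →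
        ∀ i : ℤ, IsOnto T X i) ∧
      ∀ X : V, Generated T (GS.IsAbelianOfTypes ν K M Φ T) X →
        (∀ i : ℤ, IsIso T X i) ∧ ∀ (Z U : V) (d : ℤ), IsTriple T Z X U → HasDimLE T Z d →
          ∀ i : ℤ, d ≤ i → IsIso T U i

/-- The property of the slope types `Φ i` with the weights `M i`. -/
def Q : TypeProperty := fun _ _ ν _ _ K _ _ _ M Φ => Holds ν K M Φ

/-- **The conjectures of Beilinson and Tate hold for all varieties generated by the abelian varieties
over finite fields with one half of all slope types of every CM field of degree `2 r ^ k`.** -/
theorem result : HalfOfAll Q ∧ MostWithWeightsOne Q ∧ OneOfTwo Q ∧ SixteenPercent Q := by
  have h : WithoutRelations Q := Pool.Agent.U191.GSHalf.withoutRelations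
    fun _ _ _ _ _ _ _ _ _ _ _ h _ _ _ _ _ _ hT hW =>
      ⟨fun _ hX i => GS.onto_types h hT hW hX i, fun _ hX =>
        ⟨fun i => (GS.tb_types h hT hX).iso hT i, fun _ _ _ h1 hZ _ hi =>
          GS.iso_types h hT hW hX h1 hZ hi⟩⟩
  exact ⟨halfOfAll h, mostWithWeightsOne h, oneOfTwo h, sixteenPercent h⟩

end Pool.Agent.Results.MP_81632f_ag.HalfOfAllTypes
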