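import Pool.Agent.U222.SL.R8

/-!
# The conjectures `B^n` for products of all smooth varieties with cyclic coverings of large prime
degrees

Let `κ` be a finite field with `q = c ^ f` elements, and `𝒱` a class of smooth projective varieties over
`κ`, closed under products, with Chow groups `A` with rational coefficients and a Weil cohomology theory
`H` (framework of helper492 and helper484: `TheoryData`, `IsChow`, `IsWeil`). Let `X_i` be varieties in
`𝒱`, of any dimensions `n_i ≥ 1`, which are models of the cyclic coverings

  `w ^ N_i = ∏_k l_{i,k} (x) ^ a_{i,k}`   (`a_{i,k} ≥ 1`, `∑_k a_{i,k} = A_i ≥ 2`)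

of the affine space of dimension `n_i`, branched along hyperplanes over `κ` (any arrangement of hyperplanes
which together with the hyperplane at infinity have no common point), where the `N_i` are different prime
numbers dividing `c - 1` (`IsModel`: the cohomology is generated by the classes of cycles and a part `T`,
pure of weight `n_i`, without invariants under the covering group, for which the trace formula holds).

Let `U` be **any** smooth variety over `κ` (not necessarily proper), and `Z` **any** variety in `𝒱`.
For `X` in `𝒱` let
* `T^n(X) = CH^n(X × U) ⊗ ℚ_ℓ`, with the Frobenius endomorphism `φT` of `U`,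
* `R^n(X) = H^{2n}(X̄ × Ū, ℚ_ℓ)`, in `R(X) = H(X̄) ⊗ H(Ū)`, with the Frobenius endomorphism `φ` of `U`; the
  eigenvalue `1` of `Frob_q` on `H^{2n}(X̄ × Ū, ℚ_ℓ(n))` is the eigenvalue `q ^ n` of `Φ = F_X ⊗ φ` on `R^n(X)`,
* `reg : T^n(X) → R^n(X)` the cycle class map `c^n` of `X × U`.
On `T` and `R` act the correspondences between the varieties in `𝒱` (on `R` by their cohomology
classes), and the Frobenius endomorphism of `X × U` is `q ^ n` on `T^n(X)`; only such properties are
used (`IsMixedTheory`, `IsCycleTheory`, `IsRegulator`). Let `χ` be a polynomial with rational
coefficients, `χ (0) ≠ 0`, which is satisfied by the Frobenius endomorphism of `U` on the cohomology of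
`U`, let `B` be the set of the products `β` of an eigenvalue of Frobenius on `H(Z)` and of a complex root of
`χ`, and suppose that the `β` are algebraic with `|β| ^ 2 = q ^ d` (theorem of Deligne). Let `b` be a
number such that

  `N_i > A_i ^ 2 b + A_i` for all `i`, and every `β` in `B` has degree at most `2 b + 1` over `ℚ`.

**For given `Z` and `U` these are conditions on the size of the primes `N_i` only.** The condition on `B`
which is used (`IsFewBase`) is weaker; it is sufficient that for every `β` in `B`
* the minimal polynomial has at most `2 b + 1` irreducible factors over the field of the roots of unity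
  of order `∏ N_i`,
* or at most `b` of the conjugates of `β` have a slope smaller than `(d - λ) / 2`, where `λ` is a number
  with `λ < n_i` for all `i` (for `b = 0`: all `Z × U` of level at most `λ`).

**Theorem.** Let `V` be the product of `Z` and of finitely many pairwise different `X_i`, and
`e = dim V - dim Z`.
* For every `n`: `c^n` is surjective onto the invariants of Frobenius and the eigenvalue `1` is
  semisimple for `V × U` if and only if this holds for `Z × U` and all `l` with `n - e ≤ l ≤ n`. Nothing else
  is assumed.
* Assume that homologically trivial self-correspondences of degree zero of the products `V` are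
  nilpotent (known for example if `Z` is a point and the `X_i` are curves) and that `χ (φT) = 0` on the
  Chow groups of the `X × U`. Then **`B^n(V × U)` is equivalent to the assertions `B^l(Z × U)` with
  `n - e ≤ l ≤ n`** (`c^n` is bijective onto the invariants and the eigenvalue `1` is semisimple: both
  questions).

The starting result `MP_81632f_ag.HyperplaneCoverings` (helper876) is the other case: arbitrary degrees,
but either the cyclotomic polynomial of order `∏ N_i` is irreducible over the field of the numbers
`β`, or `Z × U` is of level smaller than the dimensions of the `X_i`. Here there is no condition on the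
field generated by the `β`, nor on the level or the dimension of `Z × U`: the primes `N_i` only have to be
large against the degrees of the `β`. For example `U` may be a surface fibred over a curve `C` as in the
problem, of any geometric genus, with `b_i (U) ≤ 2 b + 1`, `Z` a point and the `X_i` the curves
`y ^ N_i = f_i (x)`, `f_i` a product of `A_i` linear factors, of different prime degrees
`N_i > A_i ^ 2 b + A_i` dividing `c - 1`: then `c^n` is surjective and the eigenvalue `1` is semisimple for
all `n` on `X_1 × ⋯ × X_r × U` if and only if the conjecture of Birch and Swinnerton-Dyer holds for the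
Albanese variety of `U_K`.

The proof. Let `α_i` be eigenvalues of the Frobenius on the parts `T_i`, for `i` in a nonempty set `I`,
with the characters `j_i` of the covering groups, and suppose that `β ∏ α_i` is a power of `q` times a
root of unity. There are `b + 1` automorphisms `σ_k` of the field of algebraic numbers
such that `σ_k j_i` are among the integers between `0` and `N_i / A_i`, and such that for any two of
them there is an automorphism `τ` for which the `τ σ_k j_i` are again in this interval and the
`τ σ_l j_i` in its negative (theorem of Thue). By the theorem of Stickelberger on Gauss sums,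
`∏ τ σ_k α_i` and `∏ τ σ_l α_i` have different `c`-adic valuations, so `σ_k β ≠ σ_l β`. So `β` has `b + 1`
different conjugates with small slopes, and with the complex conjugates `2 b + 2` different
conjugates, which is impossible. From this the decomposition of the Chow groups and of the
invariants of Frobenius follows by projectors in the ring generated by the Frobenius and the algebraic
cycles (helper876).

helper222 (`Pool/Agent/U222/SL`); the part on Chow groups, with its definitions, is the library of
helper876 (`N876/CG`, `N876/R816`), built on helpers 484, 492, 550; the slopes on cyclic coverings: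
helper876 (`N876/TC`) and the estimates of sums over hyperplane arrangements by Gauss sums (helper528
and others). The idea of large prime degrees is due to helper231.
-/

set_option autoImplicit false

open Polynomial CategoryTheory AlgebraicGeometry

namespace Pool.Agent.Results.MP_81632f_ag.LargePrimeCoverings

open Pool.Agent.H914 Pool.Agent.H914.VarClass Pool.Agent.H914.VarClass.Obj Pool.Agent.W492.BB
  Pool.Agent.W484.CK Pool.Agent.U222.SL.R8

/-- **The conjectures `B^n` for products of arbitrary smooth varieties with cyclic coverings of large
prime degrees branched along hyperplanes.** -/
theorem result (c : ℕ) [Fact c.Prime] (κ : Type) [Field κ] [Fintype κ] [CharP κ c] {ι : Type}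
    [Fintype ι] (C : ι → Covering κ) (f lam b : ℕ) (hC : IsLargeSystem C c f lam b)
    {𝒱 : VarClass κ} (A : TheoryData.{0, 0, 0} 𝒱 ℚ) [IsChow A] {K : Type} [Field K]
    [IsAlgClosed K] [CharZero K] (H : WeilTheoryData.{0, 0, 0} A K) [IsWeil H] (τ : K →+* ℂ)
    (F : ∀ X : 𝒱.Obj, X ⟶ X) (X : ι → 𝒱.Obj) (Z : 𝒱.Obj) (χ : ℚ[X])
    (h : IsCoveringSystem C c lam b H τ F X Z χ) (T R : MotivicData A)
    (φT : ∀ X, T.M X →ₗ[ℚ] T.M X) (hT : IsCycleTheory T φT F (Fintype.card κ))
    (φ : ∀ X, R.M X →ₗ[ℚ] R.M X) (hR : IsMixedTheory H R φ χ)
    (reg : ∀ X, T.M X →ₗ[ℚ] R.M X) (hreg : IsRegulator T R φT φ reg) (L : List ι)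
    (hL : L.Nodup) : Conclusions H F (Fintype.card κ) χ X Z φT φ reg L :=
  main c κ C f lam b hC A H τ F X Z χ h T R φT hT φ hR reg hreg L hL

end Pool.Agent.Results.MP_81632f_ag.LargePrimeCoverings
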