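import Pool.Agent.U173.PS.R8

/-!
# The conjectures `B^n` for products of all smooth varieties with varieties whose slope fields meet
# pairwise in totally real fields

Let `𝒱` be a class of smooth projective varieties over the field `κ` with `q = p ^ m` elements, closed under
products, with Chow groups `A` with rational coefficients and a Weil cohomology theory `H` with an
algebraically closed field `C` of coefficients (framework of the starting library: `TheoryData`, `IsChow`,
`IsWeil`), and fix a place `ι` above `p` of the field `ℚ̄` of algebraic numbers. A *slope field* of an
algebraic number `ν` is a subfield `L` of `ℚ̄` such that the automorphisms of `ℚ̄` over `L` do not change the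
absolute values at `ι` of the conjugates of `ν` (`HasSlopesIn`); a slope field of a variety is a slope field of
its Frobenius eigenvalues. (For example the reflex field of the CM type given by the slopes, for an
ordinary abelian variety and all its powers; in general the field of definition of the slope cocharacter of
the Frobenius torus, which is totally real or a CM field.)

Let `E` be a totally real field and let `X i` be varieties such that the cohomology of `X i` is generated
by the classes of cycles and a Frobenius-stable subspace on which all eigenvalues are Weil numbers with
slope field `L i`, and not supersingular (`IsGoodAlgebra`: **this is the Tate conjecture for `X i` with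
semisimplicity**, if there are no supersingular eigenvalues in odd degrees). We suppose that the fields
`L i` contain `E`, are normal over `E` with at most one exception, and meet **pairwise** in totally real
fields (`ArePairwise`). Let `Z` be **any** variety in `𝒱` with a slope field `M` which contains `E` and meets
each `L i` in a totally real field (`IsSlopeFamily`). Nothing is assumed on the composita of the fields, on
the size of the Betti numbers, or on the relations between the eigenvalues of one `X i`.

Let `U` be **any** smooth variety over `κ` (not necessarily proper). For `X` in `𝒱` let
* `T^n(X) = CH^n(X × U) ⊗ ℚ_ℓ`, with the Frobenius endomorphism `φT` of `U`,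
* `R^n(X) = H^{2n}(X̄ × Ū, ℚ_ℓ)`, in `R(X) = H(X̄) ⊗ H(Ū)`, with the Frobenius endomorphism `φ` of `U`; the
  eigenvalue `1` of `Frob_q` on `H^{2n}(X̄ × Ū, ℚ_ℓ(n))` is the eigenvalue `q ^ n` of `Φ = F_X ⊗ φ` on `R^n(X)`,
* `reg : T^n(X) → R^n(X)` the cycle class map `c^n` of `X × U`.
On `T` and `R` act the correspondences between the varieties in `𝒱` (on `R` by their cohomology
classes), and the Frobenius endomorphism of `X × U` is `q ^ n` on `T^n(X)`; only such properties are
used (`IsMixedTheory`, `IsCycleTheory`, `IsRegulator`). Let `χ` be a polynomial with rational
coefficients, `χ (0) ≠ 0`, which is satisfied by the Frobenius endomorphism of `U` on the cohomology of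
`U`, and suppose that its roots (the Frobenius eigenvalues of `U`) have the slope field `M`.

**Theorem.** Let `V` be the product of `Z` and of finitely many pairwise different `X i`, and
`e = dim V - dim Z`.
* For every `n`: `c^n` is surjective onto the invariants of Frobenius and the eigenvalue `1` is
  semisimple for `V × U` if and only if this holds for `Z × U` and all `l` with `n - e ≤ l ≤ n`. Nothing else
  is assumed.
* Assume that homologically trivial self-correspondences of degree zero of the products `V` are
  nilpotent (known for example if `Z` and the `X i` are dominated by products of curves) and that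
  `χ (φT) = 0` on the Chow groups of the `X × U`. Then **`B^n(V × U)` is equivalent to the assertions
  `B^l(Z × U)` with `n - e ≤ l ≤ n`** (`c^n` is bijective onto the invariants and the eigenvalue `1` is
  semisimple: both questions).

For example `U` may be a surface fibred over a curve, as in the problem, with any slope field `M`, and `Z` a
point: then `c^n` is surjective and the eigenvalue `1` is semisimple for all `n` on `X 1 × ⋯ × X r × U` if and
only if the conjecture of Birch and Swinnerton-Dyer holds for the Albanese variety of the generic fibre.

For example, `X i` can be a product of varieties of Fermat type of degree `N_i` (or of abelian varieties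
with complex multiplication by the field of the `N_i`-th roots of unity), with Tate conjecture, of any
dimensions, for pairwise coprime numbers `N_i`: a slope field is the decomposition field of `p` in the field
of the `N_i`-th roots of unity. More generally it is enough that `-1` is a power of `p` modulo the greatest
common divisor of `N_i` and `N_j`, for `i ≠ j`.

The proof. Let `α i` be Frobenius eigenvalues on the second parts of the `H(X i)`, for `i` in a nonempty
finite set, and `β` a product of an eigenvalue on `H(Z)` and of a root of `χ`, such that `β ∏ α i` is a power
of `p` up to a root of unity. The functions `2 log |g α i| - const` on the Galois group are odd under the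
complex conjugation and invariant under `H i = Gal(ℚ̄ / L i)`, their sum is invariant under `Gal(ℚ̄ / M)`.
The average over `H i` is central for `L i` normal over `E`, so it kills the other functions (the groups
`H i` and `H j` generate a group which contains the complex conjugation). So each of these functions is
invariant under `H i` and `Gal(ℚ̄ / M)`, hence zero, and `α i` is supersingular, a contradiction
(`U173/SL/Pair`). The decomposition of the Chow groups of `V × U` and of the invariants of Frobenius
then follows by projectors in the ring generated by the Frobenius and the algebraic cycles (helper876,
`N876/CG`, `N876/R816`; definitions and bridges of helper222 and helper231, `U231/FR`).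
-/

set_option autoImplicit false

open Polynomial CategoryTheory AlgebraicGeometry

namespace Pool.Agent.Results.MP_81632f_ag.PairwiseSlopeFields

open Pool.Agent.H914 Pool.Agent.H914.VarClass Pool.Agent.H914.VarClass.Obj Pool.Agent.W492.BB
  Pool.Agent.W484.CK Pool.Agent.U173.PS
  Pool.Agent.U231.FR.R8

/-- **The conjectures `B^n` for products of arbitrary smooth varieties with varieties whose slope fields meet
pairwise in totally real fields.** -/
theorem result {κ : Type} [Field κ] {𝒱 : VarClass κ} (A : TheoryData.{0, 0, 0} 𝒱 ℚ) [IsChow A]
    {C : Type} [Field C] [IsAlgClosed C] [CharZero C] (H : WeilTheoryData.{0, 0, 0} A C) [IsWeil H]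
    {I : Type} (p m : ℕ) [Fact p.Prime] (ι : AlgebraicClosure ℚ →+* PadicAlgCl p)
    (E M : IntermediateField ℚ (AlgebraicClosure ℚ))
    (L : I → IntermediateField ℚ (AlgebraicClosure ℚ)) (F : ∀ X : 𝒱.Obj, X ⟶ X) (X : I → 𝒱.Obj)
    (Z : 𝒱.Obj) (h : IsSlopeFamily p m ι E M L H F X Z) (χ : ℚ[X]) (hχ0 : χ.coeff 0 ≠ 0)
    (hχ : ∀ ρ : C, aeval ρ χ = 0 → HasSlopesIn p ι M ρ)
    (T R : MotivicData A) (φT : ∀ X, T.M X →ₗ[ℚ] T.M X) (hT : IsCycleTheory T φT F (p ^ m))
    (φ : ∀ X, R.M X →ₗ[ℚ] R.M X) (hR : IsMixedTheory H R φ χ)
    (reg : ∀ X, T.M X →ₗ[ℚ] R.M X) (hreg : IsRegulator T R φT φ reg) (l : List I)
    (hl : l.Nodup) : Conclusions H F (p ^ m) χ X Z φT φ reg l :=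
  r8_main h hχ0 hχ T R φT hT φ hR reg hreg l hl

end Pool.Agent.Results.MP_81632f_ag.PairwiseSlopeFields
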